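import Pool.Agent.Helper1.ZE.Rows
import Pool.Agent.Helper12.ZE.Zero

/-! Project ZE (MP_4ab349_nt), the zero estimate modulo `q`: Lucas and the minimal residue vector. -/

set_option autoImplicit false

namespace Pool.Agent.Helper1.ZE

open Finset Pool.Agent.Helper18.ZE

/-- Lucas for a product. -/
theorem lucas_prod {q : ℕ} [Fact q.Prime] (r : ℕ) (e0 x j : Fin r → ℕ) (he : ∀ i, e0 i < q) :
    (∏ i, (((e0 i + q * x i).choose (j i) : ℕ) : ZMod q)) =
      (∏ i, (((e0 i).choose (j i % q) : ℕ) : ZMod q)) *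
        ∏ i, (((x i).choose (j i / q) : ℕ) : ZMod q) := by
  rw [← Finset.prod_mul_distrib]
  refine Finset.prod_congr rfl fun i _ => ?_
  have h := (ZMod.natCast_eq_natCast_iff _ _ _).2
    (Choose.choose_modEq_choose_mod_mul_choose_div_nat (n := e0 i + q * x i) (k := j i) (p := q))
  have hq : 0 < q := (Fact.out : q.Prime).pos
  rw [h, Nat.cast_mul]
  congr 3
  · rw [Nat.add_mul_mod_self_left, Nat.mod_eq_of_lt (he i)]
  · rw [Nat.add_mul_div_left _ _ hq, Nat.div_eq_of_lt (he i), zero_add]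

/-- A product of binomials `e0 i` over `j i` vanishes unless `j ≤ e0`. -/
theorem prod_choose_zero {q r : ℕ} (e0 j : Fin r → ℕ) (h : ¬ ∀ i, j i ≤ e0 i) :
    (∏ i, (((e0 i).choose (j i) : ℕ) : ZMod q)) = 0 := by
  push Not at h
  obtain ⟨i, hi⟩ := h
  exact Finset.prod_eq_zero (Finset.mem_univ i) (by rw [Nat.choose_eq_zero_of_lt hi, Nat.cast_zero])

/-- The value of the product for a vector of minimal sum. -/
theorem prod_choose_min {q r : ℕ} (e0 j : Fin r → ℕ) (h : ∑ i, e0 i ≤ ∑ i, j i) :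
    (∏ i, (((e0 i).choose (j i) : ℕ) : ZMod q)) = if j = e0 then 1 else 0 := by
  split_ifs with hj
  · subst hj
    refine Finset.prod_eq_one fun i _ => ?_
    rw [Nat.choose_self, Nat.cast_one]
  · refine prod_choose_zero e0 j fun h1 => hj ?_
    have h2 : ∑ i, j i = ∑ i, e0 i := le_antisymm (Finset.sum_le_sum fun i _ => h1 i) h
    have h3 := (Finset.sum_eq_sum_iff_of_le (fun i _ => h1 i)).1 h2
    funext i
    exact h3 i (Finset.mem_univ i)

theorem zero_core {r q Q s0 : ℕ} [Fact q.Prime] (hQ : 0 < Q) (n : Fin (r + 1) → ℕ)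
    (hn : ∀ i, n i ≤ Q) (hβ : Dense r Q q n) (hs0 : 1 ≤ s0) (hs : (r + 1) * s0 < q)
    (J : Finset ((Fin r → ℕ) × ℕ)) (hJ : ∀ p ∈ J, ∑ i, p.1 i + q * p.2 < (r + 1) * s0 * q)
    (D : Finset (Fin r → ℕ)) (hD : ∀ a ∈ D, ∀ i, a i < q)
    (cc : (Fin r → ℕ) × ℕ → ZMod q) (dd : (Fin r → ℕ) → ZMod q) (u : ZMod q) (hu : u ≠ 0)
    (rho : Fin r → ZMod q) (hrho : ∀ i, rho i ≠ 0) (kap : ZMod q) (hk0 : kap ≠ 0) (hk1 : kap ≠ 1)
    (H : ∀ v : Row r, IsRow r Q (q * (s0 + 1)) (s0 + 1) n v →
      ∑ p ∈ J, cc p * ((bin v p.1 : ℕ) : ZMod q) * ((v.2.choose p.2 : ℕ) : ZMod q) +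
        (u * (∏ i : Fin r, rho i ^ v.1 i.succ) * kap ^ v.2) *
          ∑ a ∈ D, dd a * ((bin v a : ℕ) : ZMod q) = 0) :
    (∀ p ∈ J, cc p = 0) ∧ ∀ a ∈ D, dd a = 0 := by
  classical
  have hq : 0 < q := (Fact.out : q.Prime).pos
  by_contra hcon
  set R0 : Finset (Fin r → ℕ) :=
    ((J.filter fun p => cc p ≠ 0).image fun p i => p.1 i % q) ∪ (D.filter fun a => dd a ≠ 0) with hR0
  have hne : R0.Nonempty := by
    rw [not_and_or] at hcon
    rcases hcon with h | h
    · push Not at h
      obtain ⟨p, hp, hc⟩ := h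
      exact ⟨fun i => p.1 i % q, Finset.mem_union_left _
        (Finset.mem_image.2 ⟨p, Finset.mem_filter.2 ⟨hp, hc⟩, rfl⟩)⟩
    · push Not at h
      obtain ⟨a, ha, hc⟩ := h
      exact ⟨a, Finset.mem_union_right _ (Finset.mem_filter.2 ⟨ha, hc⟩)⟩
  obtain ⟨e0, he0R, hmin⟩ := Finset.exists_min_image R0 (fun e => ∑ i, e i) hne
  have he0 : ∀ i, e0 i < q := by
    intro i
    rcases Finset.mem_union.1 he0R with h | h
    · obtain ⟨p, _, hp⟩ := Finset.mem_image.1 h
      rw [← hp]
      exact Nat.mod_lt _ hq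
    · exact hD e0 (Finset.mem_filter.1 h).1 i
  -- the class of `e0`
  set J1 : Finset ((Fin r → ℕ) × ℕ) := J.filter fun p => (fun i => p.1 i % q) = e0 with hJ1
  set J' : Finset ((Fin r → ℕ) × ℕ) := J1.image fun p => (fun i => p.1 i / q, p.2) with hJ'
  set cc' : (Fin r → ℕ) × ℕ → ZMod q := fun p => cc (fun i => e0 i + q * p.1 i, p.2) with hcc'
  have hback : ∀ p ∈ J1, (fun i => e0 i + q * (p.1 i / q), p.2) = p := by
    intro p hp
    have h := (Finset.mem_filter.1 hp).2
    refine Prod.ext ?_ rfl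
    funext i
    rw [← h]
    exact Nat.mod_add_div _ _
  set d0 : ZMod q := u * (∏ i, rho i ^ e0 i) * (if e0 ∈ D then dd e0 else 0) with hd0
  have hJlt : ∀ p ∈ J', (∑ i, p.1 i) + p.2 < (r + 1) * s0 := by
    intro p' hp'
    obtain ⟨p, hp, rfl⟩ := Finset.mem_image.1 hp'
    have h1 := hJ p (Finset.mem_filter.1 hp).1
    have h2 : q * ∑ i, p.1 i / q ≤ ∑ i, p.1 i := by
      rw [Finset.mul_sum]
      exact Finset.sum_le_sum fun i _ => Nat.mul_div_le _ _
    have h3 : q * ((∑ i, p.1 i / q) + p.2) < q * ((r + 1) * s0) := by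
      calc q * ((∑ i, p.1 i / q) + p.2) = q * (∑ i, p.1 i / q) + q * p.2 := by ring
        _ ≤ ∑ i, p.1 i + q * p.2 := by omega
        _ < (r + 1) * s0 * q := h1
        _ = q * ((r + 1) * s0) := by ring
    exact Nat.lt_of_mul_lt_mul_left h3
  obtain ⟨b, hb⟩ := hβ
  have hkey := Pool.Agent.Helper12.ZE.class_lemma (q := q) r ((r + 1) * s0) (by positivity) hs
    (gmove r Q q b n) (sum_gmove r Q q b n) J' hJlt cc' d0 rho hrho kap hk0 hk1 (by
      intro gam hgam
      obtain ⟨f0, hf0⟩ := rows_exist q r s0 Q b hq hQ n hn hb e0 he0 gam hgam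
      refine ⟨f0, fun m hm => ?_⟩
      obtain ⟨v, x, hx1, hx2, hx3, hx4⟩ := hf0 m hm
      refine ⟨x, v.2, hx1, hx3, ?_⟩
      have hv := H v hx4
      have hbin : ∀ j : Fin r → ℕ, ((bin v j : ℕ) : ZMod q) =
          (∏ i, (((e0 i).choose (j i % q) : ℕ) : ZMod q)) *
            ∏ i, (((x i).choose (j i / q) : ℕ) : ZMod q) := by
        intro j
        rw [← lucas_prod r e0 x j he0]
        unfold bin
        rw [Nat.cast_prod]
        exact Finset.prod_congr rfl fun i _ => by rw [hx2]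
      -- the exact part
      have hA : ∑ p ∈ J, cc p * ((bin v p.1 : ℕ) : ZMod q) * ((v.2.choose p.2 : ℕ) : ZMod q) =
          ∑ p ∈ J', cc' p * (∏ i, ((x i).choose (p.1 i) : ZMod q)) * (v.2.choose p.2 : ZMod q) := by
        rw [hJ', Finset.sum_image, hJ1, Finset.sum_filter]
        · refine Finset.sum_congr rfl fun p hp => ?_
          by_cases hc : cc p = 0
          · split_ifs with h
            · have h1 := hback p (Finset.mem_filter.2 ⟨hp, h⟩)
              simp only [hcc']
              rw [h1, hc]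
              ring
            · rw [hc]
              ring
          · have hmem : (fun i => p.1 i % q) ∈ R0 := Finset.mem_union_left _
              (Finset.mem_image.2 ⟨p, Finset.mem_filter.2 ⟨hp, hc⟩, rfl⟩)
            have h2 := prod_choose_min (q := q) e0 (fun i => p.1 i % q) (hmin _ hmem)
            rw [hbin, h2]
            split_ifs with h
            · have h1 := hback p (Finset.mem_filter.2 ⟨hp, h⟩)
              simp only [hcc']
              rw [h1, one_mul]
            · ring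
        · intro p hp p' hp' heq
          rw [← hback p hp, ← hback p' hp']
          simp only [Prod.mk.injEq] at heq
          refine Prod.ext ?_ heq.2
          funext i
          have h5 : p.1 i / q = p'.1 i / q := congrFun heq.1 i
          show e0 i + q * (p.1 i / q) = e0 i + q * (p'.1 i / q)
          rw [h5]
      -- the character
      have hB : ∏ i : Fin r, rho i ^ v.1 i.succ = (∏ i, rho i ^ e0 i) * ∏ i, rho i ^ x i := by
        rw [← Finset.prod_mul_distrib]
        refine Finset.prod_congr rfl fun i _ => ?_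
        rw [hx2, pow_add, pow_mul, ZMod.pow_card]
      have hC : ∑ a ∈ D, dd a * ((bin v a : ℕ) : ZMod q) = if e0 ∈ D then dd e0 else 0 := by
        have h1 : ∀ a ∈ D, dd a * ((bin v a : ℕ) : ZMod q) = if a = e0 then dd a else 0 := by
          intro a ha
          by_cases hc : dd a = 0
          · rw [hc]
            simp
          · have hmem : a ∈ R0 := Finset.mem_union_right _ (Finset.mem_filter.2 ⟨ha, hc⟩)
            have h2 := prod_choose_min (q := q) e0 a (hmin _ hmem)
            have h3 : (∏ i, (((e0 i).choose (a i % q) : ℕ) : ZMod q)) =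
                ∏ i, (((e0 i).choose (a i) : ℕ) : ZMod q) :=
              Finset.prod_congr rfl fun i _ => by rw [Nat.mod_eq_of_lt (hD a ha i)]
            have h4 : ∏ i, (((x i).choose (a i / q) : ℕ) : ZMod q) = 1 :=
              Finset.prod_eq_one fun i _ => by
                rw [Nat.div_eq_of_lt (hD a ha i), Nat.choose_zero_right, Nat.cast_one]
            rw [hbin, h3, h4, h2]
            split_ifs <;> ring
        rw [Finset.sum_congr rfl h1, Finset.sum_ite_eq' D e0]
      rw [hA, hB, hC] at hv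
      rw [← hv, hd0]
      ring)
  obtain ⟨hk1', hk2'⟩ := hkey
  rcases Finset.mem_union.1 he0R with h | h
  · obtain ⟨p, hp, hpe⟩ := Finset.mem_image.1 h
    obtain ⟨hpJ, hpc⟩ := Finset.mem_filter.1 hp
    have hpJ1 : p ∈ J1 := Finset.mem_filter.2 ⟨hpJ, hpe⟩
    have h1 := hk1' (fun i => p.1 i / q, p.2) (Finset.mem_image.2 ⟨p, hpJ1, rfl⟩)
    simp only [hcc'] at h1
    rw [hback p hpJ1] at h1
    exact hpc h1
  · obtain ⟨hD0, hd0'⟩ := Finset.mem_filter.1 h
    rw [hd0, if_pos hD0] at hk2'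
    have h1 : (∏ i, rho i ^ e0 i) ≠ 0 := Finset.prod_ne_zero_iff.2 fun i _ => pow_ne_zero _ (hrho i)
    exact (mul_ne_zero (mul_ne_zero hu h1) hd0') hk2'

end Pool.Agent.Helper1.ZE
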