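import Pool.Agent.Helper1.ZE.Core

/-! Project ZE (MP_4ab349_nt), the zero estimate modulo `q`. -/

set_option autoImplicit false

namespace Pool.Agent.Helper1.ZE

open Finset Pool.Agent.Helper18.ZE

/-- Z4: the zero estimate. -/
theorem zero_estimate {r q Q s0 : ℕ} [Fact q.Prime] (hr : 1 ≤ r) (hQ : 0 < Q) (n : Fin (r + 1) → ℕ)
    (hn : ∀ i, n i ≤ Q) (hβ : Dense r Q q n) (hs0 : 1 ≤ s0) (hs : (r + 1) * s0 < q) (θ : Fin (r + 1) → ZMod q)
    (hθ : ∀ i, θ i ≠ 0) (κ u : ZMod q) (hκ0 : κ ≠ 0) (hκ : κ ≠ 1) (hu : u ≠ 0)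
    (x : Col r q ((r + 1) * s0) → ZMod q) (hx : x ≠ 0) :
    ∃ v : Row r, IsRow r Q (q * (s0 + 1)) (s0 + 1) n v ∧
      ∑ c, x c * entry (fun v => u * (∏ i, θ i ^ v.1 i) * κ ^ v.2) v c ≠ 0 := by
  classical
  by_contra hcon
  push Not at hcon
  have hq : 0 < q := (Fact.out : q.Prime).pos
  set A : ℕ := (r + 1) * (q * (s0 + 1)) with hA
  set cc : (Fin r → ℕ) × ℕ → ZMod q := fun p =>
    if hp : p ∈ Ex r q ((r + 1) * s0) then x (.inl ⟨p, hp⟩) else 0 with hcc
  set dd : (Fin r → ℕ) → ZMod q := fun a => if ha : a ∈ Rx r q then x (.inr ⟨a, ha⟩) else 0 with hdd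
  obtain ⟨h1, h2⟩ := zero_core (r := r) (q := q) (Q := Q) (s0 := s0) hQ n hn hβ hs0 hs
    (Ex r q ((r + 1) * s0)) (fun p hp => (Finset.mem_filter.1 hp).2) (Rx r q) (by
      intro a ha i
      have h3 := Finset.mem_range.1 (Fintype.mem_piFinset.1 ha i)
      have h4 : (q - 1) / r ≤ q - 1 := Nat.div_le_self _ _
      omega) cc dd (u * θ 0 ^ A) (mul_ne_zero hu (pow_ne_zero _ (hθ 0)))
    (fun i => θ i.succ / θ 0) (fun i => div_ne_zero (hθ _) (hθ 0)) κ hκ0 hκ (by
      intro v hv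
      have h3 := hcon v hv
      rw [Fintype.sum_sum_type] at h3
      have h4 : ∑ p : Ex r q ((r + 1) * s0),
          x (.inl p) * entry (fun v => u * (∏ i, θ i ^ v.1 i) * κ ^ v.2) v
            (.inl p : Col r q ((r + 1) * s0)) =
          ∑ p ∈ Ex r q ((r + 1) * s0),
            cc p * ((bin v p.1 : ℕ) : ZMod q) * ((v.2.choose p.2 : ℕ) : ZMod q) := by
        rw [← Finset.sum_coe_sort (Ex r q ((r + 1) * s0)) fun p =>
          cc p * ((bin v p.1 : ℕ) : ZMod q) * ((v.2.choose p.2 : ℕ) : ZMod q)]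
        refine Finset.sum_congr rfl fun p _ => ?_
        simp only [hcc, entry, dif_pos p.2]
        push_cast
        ring
      have h5 : ∑ a : Rx r q,
          x (.inr a) * entry (fun v => u * (∏ i, θ i ^ v.1 i) * κ ^ v.2) v
            (.inr a : Col r q ((r + 1) * s0)) =
          (u * (∏ i, θ i ^ v.1 i) * κ ^ v.2) * ∑ a ∈ Rx r q, dd a * ((bin v a : ℕ) : ZMod q) := by
        rw [← Finset.sum_coe_sort (Rx r q) fun a => dd a * ((bin v a : ℕ) : ZMod q), Finset.mul_sum]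
        refine Finset.sum_congr rfl fun a _ => ?_
        simp only [hdd, entry, dif_pos a.2]
        ring
      have h6 : (∏ i, θ i ^ v.1 i) = θ 0 ^ A * ∏ i : Fin r, (θ i.succ / θ 0) ^ v.1 i.succ := by
        have h7 : v.1 0 + ∑ i : Fin r, v.1 i.succ = A := by
          rw [← Fin.sum_univ_succ]
          exact hv.1
        rw [Fin.prod_univ_succ, ← h7, pow_add]
        simp_rw [div_pow]
        rw [Finset.prod_div_distrib, ← Finset.prod_pow_eq_pow_sum]
        have h8 : (∏ i : Fin r, θ 0 ^ v.1 i.succ) ≠ 0 :=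
          Finset.prod_ne_zero_iff.2 fun i _ => pow_ne_zero _ (hθ 0)
        field_simp
      rw [h4, h5, h6] at h3
      rw [← h3]
      ring)
  refine hx (funext fun c => ?_)
  rcases c with p | a
  · have h3 := h1 p.1 p.2
    simp only [hcc, dif_pos p.2] at h3
    exact h3
  · have h3 := h2 a.1 a.2
    simp only [hdd, dif_pos a.2] at h3
    exact h3

end Pool.Agent.Helper1.ZE
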