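import Pool.Agent.Helper18.ZE.Defs

/-! Project ZE (MP_4ab349_nt), the zero estimate: the rows of one residue class. -/

set_option autoImplicit false

namespace Pool.Agent.Helper1.ZE

open Finset Pool.Agent.Helper18.ZE

/-- Cyclic sum. -/
theorem sum_cyc {R : Type} [CommRing R] (r : ℕ) (m a : Fin (r + 1) → R) :
    ∑ k, a k * (m (k + 1) - m k) = ∑ k, m k * (a (k - 1) - a k) := by
  have h1 : ∑ k, a k * m (k + 1) = ∑ k, a (k - 1) * m k := by
    rw [← Equiv.sum_comp (Equiv.addRight (1 : Fin (r + 1))) (fun k => a (k - 1) * m k)]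
    refine Finset.sum_congr rfl fun k _ => ?_
    simp
  calc ∑ k, a k * (m (k + 1) - m k) = ∑ k, a k * m (k + 1) - ∑ k, a k * m k := by
        rw [← Finset.sum_sub_distrib]
        exact Finset.sum_congr rfl fun k _ => by ring
    _ = ∑ k, a (k - 1) * m k - ∑ k, a k * m k := by rw [h1]
    _ = _ := by
        rw [← Finset.sum_sub_distrib]
        exact Finset.sum_congr rfl fun k _ => by ring

/-- The change of `f` under the move with the number `k`. -/
def gmove (r Q q b : ℕ) (n : Fin (r + 1) → ℕ) (k : Fin (r + 1)) : ℤ :=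
  -(((q * n (k - 1) + b) / Q : ℕ) - ((q * n k + b) / Q : ℕ) + if k = 0 then 1 else 0 : ℤ)

theorem sum_gmove (r Q q b : ℕ) (n : Fin (r + 1) → ℕ) : ∑ k, gmove r Q q b n k = -1 := by
  unfold gmove
  rw [Finset.sum_neg_distrib, Finset.sum_add_distrib, Finset.sum_sub_distrib]
  have h1 : ∑ k : Fin (r + 1), (((q * n (k - 1) + b) / Q : ℕ) : ℤ) =
      ∑ k : Fin (r + 1), (((q * n k + b) / Q : ℕ) : ℤ) :=
    Equiv.sum_comp (Equiv.subRight (1 : Fin (r + 1))) (fun k => (((q * n k + b) / Q : ℕ) : ℤ))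
  rw [h1]
  simp

/-- The rows of the class: `e0 + q x`, moved by `m`. -/
theorem rows_exist (q r s0 Q b : ℕ) (hq : 0 < q) (hQ : 0 < Q) (n : Fin (r + 1) → ℕ)
    (hn : ∀ i, n i ≤ Q)
    (hb : ∀ i : Fin (r + 1), i.val * Q ≤ (r + 1) * ((q * n i + b) % Q) ∧
      (r + 1) * ((q * n i + b) % Q) < (i.val + 1) * Q)
    (e0 : Fin r → ℕ) (he0 : ∀ i, e0 i < q) (gam : Fin (r + 1) → ℕ)
    (hgam : ∑ i, gam i ≤ (r + 1) * s0) :
    ∃ f0 : ℤ, ∀ m : Fin (r + 1) → ℕ, (∀ i, m i ≤ gam i) →
      ∃ (v : Row r) (x : Fin r → ℕ),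
        (∀ i : Fin r, (x i : ℤ) = gam i.succ + m (i.succ + 1) - m i.succ) ∧
        (∀ i : Fin r, v.1 i.succ = e0 i + q * x i) ∧
        (v.2 : ℤ) = f0 + ∑ k, (m k : ℤ) * gmove r Q q b n k ∧
        IsRow r Q (q * (s0 + 1)) (s0 + 1) n v := by
  set C : ℕ := q * (s0 + 1) with hC
  set M : ℕ := s0 + 1 with hM
  set A : ℤ := (r + 1) * C with hA
  have hA' : A = q * ((r + 1) * s0) + r * q + q := by
    rw [hA, hC, hM]
    push_cast
    ring
  set base : Fin (r + 1) → ℤ := Fin.cons (A - ∑ i, (e0 i : ℤ) - q * ∑ i : Fin r, (gam i.succ : ℤ))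
    (fun i => (e0 i : ℤ) + q * gam i.succ) with hbase
  set T0 : ℤ := ∑ k, (base k - C) * n k with hT0
  have hQZ : (0 : ℤ) < Q := by exact_mod_cast hQ
  set mu0 : ℤ := -((M * Q - T0) / Q) with hmu0
  refine ⟨A + M - mu0, fun m hm => ?_⟩
  -- the exponents
  have hb0 : base 0 = A - ∑ i, (e0 i : ℤ) - q * ∑ i : Fin r, (gam i.succ : ℤ) := by
    rw [hbase, Fin.cons_zero]
  have hbs : ∀ i : Fin r, base i.succ = (e0 i : ℤ) + q * gam i.succ := fun i => by
    rw [hbase, Fin.cons_succ]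
  have hgamZ : (gam 0 : ℤ) + ∑ i : Fin r, (gam i.succ : ℤ) ≤ (r + 1) * s0 := by
    have h1 := hgam
    rw [Fin.sum_univ_succ] at h1
    exact_mod_cast h1
  have he0s : ∑ i, (e0 i : ℤ) ≤ r * q := by
    calc ∑ i, (e0 i : ℤ) ≤ ∑ _i : Fin r, (q : ℤ) :=
          Finset.sum_le_sum fun i _ => by exact_mod_cast (he0 i).le
      _ = r * q := by rw [Finset.sum_const, Finset.card_univ, Fintype.card_fin, nsmul_eq_mul]
  have hqZ : (0 : ℤ) < q := by exact_mod_cast hq
  have hnn : ∀ k, 0 ≤ base k + q * ((m (k + 1) : ℤ) - m k) := by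
    intro k
    refine Fin.cases ?_ (fun i => ?_) k
    · rw [hb0]
      have h1 : (m 0 : ℤ) ≤ gam 0 := by exact_mod_cast hm 0
      have h2 : (0 : ℤ) ≤ (m (0 + 1) : ℤ) := Int.natCast_nonneg _
      have h3 : (q : ℤ) * (m 0 : ℤ) ≤ q * ((r + 1) * s0 - ∑ i : Fin r, (gam i.succ : ℤ)) :=
        mul_le_mul_of_nonneg_left (by linarith) hqZ.le
      have h4 : (0 : ℤ) ≤ q * (m (0 + 1) : ℤ) := by positivity
      rw [hA']
      nlinarith
    · rw [hbs]
      have h1 : (m i.succ : ℤ) ≤ gam i.succ := by exact_mod_cast hm i.succ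
      have h2 : (0 : ℤ) ≤ (m (i.succ + 1) : ℤ) := Int.natCast_nonneg _
      have h3 : (0 : ℤ) ≤ e0 i := Int.natCast_nonneg _
      have h4 : (0 : ℤ) ≤ q * ((gam i.succ : ℤ) + ((m (i.succ + 1) : ℤ) - m i.succ)) :=
        mul_nonneg hqZ.le (by linarith)
      nlinarith
  set e : Fin (r + 1) → ℕ := fun k => (base k + q * ((m (k + 1) : ℤ) - m k)).toNat with he
  have heZ : ∀ k, (e k : ℤ) = base k + q * ((m (k + 1) : ℤ) - m k) := fun k =>
    Int.toNat_of_nonneg (hnn k)
  have hcyc0 : ∑ k : Fin (r + 1), ((m (k + 1) : ℤ) - m k) = 0 := by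
    have h := sum_cyc r (fun k => (m k : ℤ)) (fun _ => (1 : ℤ))
    simpa using h
  have hsum : ∑ k, (e k : ℤ) = A := by
    simp_rw [heZ]
    rw [Finset.sum_add_distrib, ← Finset.mul_sum, hcyc0, mul_zero, add_zero, Fin.sum_univ_succ, hb0]
    simp_rw [hbs]
    rw [Finset.sum_add_distrib, ← Finset.mul_sum]
    ring
  -- the remainders
  set be : Fin (r + 1) → ℤ := fun k => ((q * n k + b) % Q : ℕ) with hbe
  set Nn : Fin (r + 1) → ℤ := fun k => ((q * n k + b) / Q : ℕ) with hNn
  have hdiv : ∀ k, (q : ℤ) * n k + b = Q * Nn k + be k := by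
    intro k
    have h := Nat.div_add_mod (q * n k + b) Q
    have h1 : ((Q * ((q * n k + b) / Q) + (q * n k + b) % Q : ℕ) : ℤ) = ((q * n k + b : ℕ) : ℤ) := by
      rw [h]
    simp only [hNn, hbe]
    rw [← Nat.cast_mul, ← Nat.cast_add, ← Nat.cast_mul, ← Nat.cast_add]
    exact h1.symm
  have hb1 : ∀ k : Fin (r + 1), (k.val : ℤ) * Q ≤ (r + 1) * be k := by
    intro k
    have := (hb k).1
    simp only [hbe]
    exact_mod_cast this
  have hb2 : ∀ k : Fin (r + 1), ((r : ℤ) + 1) * be k < (k.val + 1) * Q := by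
    intro k
    have := (hb k).2
    simp only [hbe]
    exact_mod_cast this
  set dl : Fin (r + 1) → ℤ := fun k => be (k - 1) - be k - if k = 0 then (Q : ℤ) else 0 with hdl
  have hG : (0 : ℤ) < (r : ℤ) + 1 := by positivity
  have hlast : (0 : Fin (r + 1)) - 1 = Fin.last r := by
    rw [sub_eq_iff_eq_add]
    exact (Fin.last_add_one r).symm
  have hpred : ∀ i : Fin r, i.succ - 1 = i.castSucc := by
    intro i
    rw [sub_eq_iff_eq_add]
    exact (Fin.coeSucc_eq_succ).symm
  have hdl1 : ∀ k, dl k ≤ 0 := by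
    intro k
    refine Fin.cases ?_ (fun i => ?_) k
    · have h1 := hb2 (Fin.last r)
      have h2 := hb1 0
      rw [Fin.val_last] at h1
      simp only [hdl, hlast, if_true]
      have h3 : be (Fin.last r) < Q := by
        by_contra h
        push Not at h
        have := mul_le_mul_of_nonneg_left h hG.le
        linarith
      have h4 : 0 ≤ be 0 := by
        by_contra h
        push Not at h
        have := mul_neg_of_pos_of_neg hG h
        simp at h2
        linarith
      linarith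
    · have h1 := hb2 i.castSucc
      have h2 := hb1 i.succ
      rw [Fin.val_castSucc] at h1
      rw [Fin.val_succ] at h2
      simp only [hdl, hpred, if_neg (Fin.succ_ne_zero i)]
      push_cast at h2
      have h3 : be i.castSucc < be i.succ := by
        by_contra h
        push Not at h
        have := mul_le_mul_of_nonneg_left h hG.le
        linarith
      linarith
  have hdl2 : ∀ k, -(2 * (Q : ℤ)) ≤ (r + 1) * dl k := by
    intro k
    refine Fin.cases ?_ (fun i => ?_) k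
    · have h1 := hb1 (Fin.last r)
      have h2 := hb2 0
      rw [Fin.val_last] at h1
      simp only [hdl, hlast, if_true]
      simp at h2
      have h3 : ((r : ℤ) + 1) * (be (Fin.last r) - be 0 - Q) =
        (r + 1) * be (Fin.last r) - (r + 1) * be 0 - (r + 1) * Q := by ring
      rw [h3]
      linarith
    · have h1 := hb1 i.castSucc
      have h2 := hb2 i.succ
      rw [Fin.val_castSucc] at h1
      rw [Fin.val_succ] at h2
      simp only [hdl, hpred, if_neg (Fin.succ_ne_zero i)]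
      push_cast at h2
      have h3 : ((r : ℤ) + 1) * (be i.castSucc - be i.succ - 0) =
        (r + 1) * be i.castSucc - (r + 1) * be i.succ := by ring
      rw [h3]
      linarith
  have hgm : ∀ k, gmove r Q q b n k = -(Nn (k - 1) - Nn k + if k = 0 then 1 else 0) := by
    intro k
    rfl
  set f : ℤ := A + M - mu0 + ∑ k, (m k : ℤ) * gmove r Q q b n k with hf
  -- the value of `t`
  have ht : ∑ k, ((e k : ℤ) - C) * n k - Q * (A + M - f) =
      (T0 - Q * mu0) + ∑ k, (m k : ℤ) * dl k := by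
    have h2 := sum_cyc r (fun k => (m k : ℤ)) (fun k => (q : ℤ) * n k)
    have h3 : ∑ k, ((e k : ℤ) - C) * n k = T0 + ∑ k, (m k : ℤ) * (q * n (k - 1) - q * n k) := by
      rw [← h2, hT0, ← Finset.sum_add_distrib]
      refine Finset.sum_congr rfl fun k _ => ?_
      rw [heZ]
      ring
    have h4 : ∑ k, (m k : ℤ) * (q * n (k - 1) - q * n k) =
        ∑ k, (m k : ℤ) * dl k - Q * ∑ k, (m k : ℤ) * gmove r Q q b n k := by
      rw [Finset.mul_sum, ← Finset.sum_sub_distrib]
      refine Finset.sum_congr rfl fun k _ => ?_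
      have h5 := hdiv k
      have h6 := hdiv (k - 1)
      have h7 : (q : ℤ) * n (k - 1) - q * n k = Q * (Nn (k - 1) - Nn k) + (be (k - 1) - be k) := by
        linarith
      rw [hgm, h7]
      simp only [hdl]
      split_ifs <;> ring
    rw [h3, h4, hf]
    ring
  have hmod := Int.emod_add_mul_ediv (M * Q - T0) Q
  have hmod0 := Int.emod_nonneg (M * Q - T0) hQZ.ne'
  have hmod1 := Int.emod_lt_of_pos (M * Q - T0) hQZ
  have hbaset : T0 - Q * mu0 = M * Q - (M * Q - T0) % Q := by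
    rw [hmu0]
    linarith
  have hup : ∑ k, (m k : ℤ) * dl k ≤ 0 := Finset.sum_nonpos fun k _ =>
    mul_nonpos_of_nonneg_of_nonpos (Int.natCast_nonneg _) (hdl1 k)
  have hlow : -(2 * (Q : ℤ) * s0) ≤ ∑ k, (m k : ℤ) * dl k := by
    have h5 : ∑ k, (m k : ℤ) * (-(2 * (Q : ℤ))) ≤ ∑ k, (m k : ℤ) * ((r + 1) * dl k) :=
      Finset.sum_le_sum fun k _ => mul_le_mul_of_nonneg_left (hdl2 k) (Int.natCast_nonneg _)
    have h6 : ∑ k, (m k : ℤ) ≤ (r + 1) * s0 := by
      have h7 : ∑ k, m k ≤ (r + 1) * s0 := (Finset.sum_le_sum fun k _ => hm k).trans hgam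
      exact_mod_cast h7
    rw [← Finset.sum_mul] at h5
    have h8 : ∑ k, (m k : ℤ) * ((r + 1) * dl k) = (r + 1) * ∑ k, (m k : ℤ) * dl k := by
      rw [Finset.mul_sum]
      exact Finset.sum_congr rfl fun k _ => by ring
    rw [h8] at h5
    have h9 : 2 * (Q : ℤ) * ∑ k, (m k : ℤ) ≤ 2 * Q * ((r + 1) * s0) :=
      mul_le_mul_of_nonneg_left h6 (by positivity)
    by_contra h
    push Not at h
    have := mul_lt_mul_of_pos_left h hG
    nlinarith
  have hT1 : ∑ k, ((e k : ℤ) - C) * n k - Q * (A + M - f) ≤ M * Q := by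
    rw [ht, hbaset]
    linarith
  have hT2 : -((M : ℤ) * Q) ≤ ∑ k, ((e k : ℤ) - C) * n k - Q * (A + M - f) := by
    rw [ht, hbaset]
    have h1 : (M : ℤ) * Q = s0 * Q + Q := by rw [hM]; push_cast; ring
    have h2 : 2 * (Q : ℤ) * s0 = 2 * (s0 * Q) := by ring
    have h3 : (0 : ℤ) ≤ s0 * Q := by positivity
    rw [h2] at hlow
    linarith
  have hf0 : 0 ≤ f := by
    have h1 : ∑ k, ((e k : ℤ) - C) * n k ≤ A * Q := by
      rw [← hsum, Finset.sum_mul]
      refine Finset.sum_le_sum fun k _ => ?_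
      have h2 : (n k : ℤ) ≤ Q := by exact_mod_cast hn k
      have h3 : (0 : ℤ) ≤ n k := Int.natCast_nonneg _
      have h4 : (0 : ℤ) ≤ e k := Int.natCast_nonneg _
      have h5 : (0 : ℤ) ≤ (C : ℤ) * n k := by positivity
      nlinarith
    by_contra h
    push Not at h
    have h6 : (Q : ℤ) * (A + M + 1) ≤ Q * (A + M - f) :=
      mul_le_mul_of_nonneg_left (by linarith) hQZ.le
    nlinarith
  refine ⟨(e, f.toNat), fun i => gam i.succ + m (i.succ + 1) - m i.succ, ?_, ?_, ?_, ?_, ?_⟩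
  · intro i
    have h1 := hm i.succ
    push_cast [Nat.cast_sub (show m i.succ ≤ gam i.succ + m (i.succ + 1) by omega)]
    ring
  · intro i
    have h1 := hm i.succ
    have h2 := heZ i.succ
    rw [hbs] at h2
    have h3 : ((gam i.succ + m (i.succ + 1) - m i.succ : ℕ) : ℤ) =
        gam i.succ + m (i.succ + 1) - m i.succ := by
      push_cast [Nat.cast_sub (show m i.succ ≤ gam i.succ + m (i.succ + 1) by omega)]
      ring
    have h4 : (e i.succ : ℤ) = ((e0 i + q * (gam i.succ + m (i.succ + 1) - m i.succ) : ℕ) : ℤ) := by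
      rw [h2, Nat.cast_add, Nat.cast_mul, h3]
      ring
    exact_mod_cast h4
  · show ((f.toNat : ℕ) : ℤ) = _
    rw [Int.toNat_of_nonneg hf0]
  · have h1 : ((∑ k, e k : ℕ) : ℤ) = (((r + 1) * C : ℕ) : ℤ) := by
      push_cast
      rw [hsum, hA]
    exact_mod_cast h1
  · have h1 : tq r Q C M n (e, f.toNat) = ∑ k, ((e k : ℤ) - C) * n k - Q * (A + M - f) := by
      unfold tq
      rw [Int.toNat_of_nonneg hf0]
      push_cast
      rw [hA]
    rw [h1, abs_le]
    constructor
    · exact_mod_cast hT2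
    · exact_mod_cast hT1

end Pool.Agent.Helper1.ZE
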